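import Mathlib
import Pool.Agent.H.MP_9bb806_co.Defs
import Pool.Agent.H.MP_9bb806_co.Duality
import Pool.Agent.H.MP_9bb806_co.Ineq
import Pool.Agent.H.MP_9bb806_co.Fill
import Pool.Agent.H.MP_9bb806_co.Link
import Pool.Agent.H.MP_9bb806_co.BoxGraph

/-!
Among all connected induced subgraphs of the square lattice on `n ^ 2` vertices, the square grid
has the largest number of spanning trees.
-/

namespace Pool.Agent.Results.MP_9bb806_co.SquareMaximal

open Pool.Agent.H.MP_9bb806_co

/-- The square grid maximises the number of spanning trees. -/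
theorem result (n : ℕ) (hn : 1 ≤ n) (S : Finset (ℤ × ℤ)) (hcard : S.card = n ^ 2)
    (hconn : (lattice.induce (S : Set (ℤ × ℤ))).Connected) :
    numSpanningTrees (lattice.induce (S : Set (ℤ × ℤ))) ≤
      numSpanningTrees (SimpleGraph.pathGraph n □ SimpleGraph.pathGraph n) := by
  obtain ⟨N, rfl⟩ : ∃ N, n = N + 1 := ⟨n - 1, by omega⟩
  have hS : Conn S := Link.conn_of_connected hconn
  have hpos : 0 < S.card := by rw [hcard]; positivity
  obtain ⟨r, hr⟩ := Finset.card_pos.mp hpos
  have hr' : r ∈ Fill.fill S := Fill.subset_fill S hr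
  -- the filled set
  obtain ⟨d1, d2⟩ := Dual.main (Fill.conn_fill hS) (Fill.holeFree_fill S) hr'
  have hcard' : (Fill.fill S).card = (N + 1) ^ 2 + (Fill.hol S).card := by
    rw [Fill.card_fill, hcard]
  have h1 := Fill.main hr
  have h2 := Ineq.main (Fill.holeFree_fill S) hcard' d2
  -- the box
  have h0 : ((0, 0) : ℤ × ℤ) ∈ TW.boxF (N + 1) := by
    rw [TW.mem_boxF]
    refine ⟨⟨le_rfl, ?_⟩, ⟨le_rfl, ?_⟩⟩ <;>
    · change (0 : ℤ) < ((N + 1 : ℕ) : ℤ)
      positivity
  have d3 := (Dual.main (Box.conn_box (N + 1)) (Box.holeFree_box (N + 1)) h0).1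
  rw [Box.faces_box] at d3
  have t1 := Link.main hr
  have t2 := Link.main h0
  rw [numSpanningTrees_iso (Box.iso (N + 1))] at t2
  have hI := Fill.one_le_dirM (Fill.hol S)
  rw [← t1] at h1
  rw [d1, d3, ← t2] at h2
  have h3 := h1.trans h2
  rw [mul_comm ((dirM (Fill.hol S)).det)] at h3
  have h4 := le_of_mul_le_mul_right h3 (by omega)
  exact_mod_cast h4

end Pool.Agent.Results.MP_9bb806_co.SquareMaximal
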